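import Pool.Agent.H8.AV3.Stmts6

/-!
# AV3C, module BAS: local to global, uniqueness of the splitting type
-/

set_option autoImplicit false

namespace Pool.Agent.H44.AV3C

open Polynomial Matrix Pool.AVR Pool.AV3

theorem intDegree_X_zpow {F : Type} [Field F] (k : ℤ) :
    ((RatFunc.X : RatFunc F) ^ k).intDegree = k := by
  have hn : ∀ m : ℕ, ((RatFunc.X : RatFunc F) ^ m).intDegree = m := by
    intro m
    rw [← RatFunc.algebraMap_X, ← map_pow, RatFunc.intDegree_polynomial, natDegree_X_pow]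
  obtain ⟨m, rfl | rfl⟩ := k.eq_nat_or_neg
  · rw [zpow_natCast, hn]
  · rw [_root_.zpow_neg, zpow_natCast, RatFunc.intDegree_inv, hn]

/-- A matrix of rational functions is a multiple of a primitive polynomial matrix. -/
theorem prim_exists {F : Type} [Field F] (g : Matrix (Fin 3) (Fin 3) (RatFunc F)) (hg : g ≠ 0) :
    ∃ (A : Matrix (Fin 3) (Fin 3) F[X]) (r : RatFunc F), r ≠ 0 ∧
      g = r • A.map (algebraMap F[X] (RatFunc F)) ∧
      ∀ P : F[X], Irreducible P → ∃ i j, ¬ P ∣ A i j := by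
  obtain ⟨b, hb⟩ := IsLocalization.exist_integer_multiples_of_finite (nonZeroDivisors F[X])
    (fun p : Fin 3 × Fin 3 => g p.1 p.2)
  choose B hB using hb
  have hb0 : (b : F[X]) ≠ 0 := nonZeroDivisors.ne_zero b.2
  have hbK : algebraMap F[X] (RatFunc F) (b : F[X]) ≠ 0 := by simpa using hb0
  let I : Ideal F[X] := Ideal.span (Set.range B)
  let d : F[X] := Submodule.IsPrincipal.generator I
  have hI : I = Ideal.span {d} := (Ideal.span_singleton_generator I).symm
  have hdvd : ∀ p, d ∣ B p := by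
    intro p
    rw [← Ideal.mem_span_singleton, ← hI]
    exact Ideal.subset_span ⟨p, rfl⟩
  have hB' : ∀ p : Fin 3 × Fin 3, algebraMap F[X] (RatFunc F) (B p) =
      algebraMap F[X] (RatFunc F) (b : F[X]) * g p.1 p.2 := by
    intro p
    have h1 := hB p
    rw [Algebra.smul_def] at h1
    exact h1
  have hd0 : d ≠ 0 := by
    intro h0
    apply hg
    funext i j
    have h1 : B (i, j) = 0 := by
      have h2 := hdvd (i, j)
      rw [h0, zero_dvd_iff] at h2
      exact h2
    have h3 := hB' (i, j)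
    rw [h1, map_zero] at h3
    rcases mul_eq_zero.1 h3.symm with h4 | h4
    · exact absurd h4 hbK
    · exact h4
  choose A hA using hdvd
  have hdK : algebraMap F[X] (RatFunc F) d ≠ 0 := by simpa using hd0
  refine ⟨Matrix.of fun i j => A (i, j), algebraMap F[X] (RatFunc F) d /
    algebraMap F[X] (RatFunc F) (b : F[X]), div_ne_zero hdK hbK, ?_, ?_⟩
  · funext i j
    rw [Matrix.smul_apply, Matrix.map_apply, Matrix.of_apply, smul_eq_mul, div_mul_eq_mul_div,
      eq_div_iff hbK, ← map_mul, ← hA (i, j), hB' (i, j), mul_comm]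
  · intro P hP
    by_contra hcon
    push Not at hcon
    have h1 : d ∈ I := Submodule.IsPrincipal.generator_mem I
    obtain ⟨c, hc⟩ := (Ideal.mem_span_range_iff_exists_fun).1 h1
    have h2 : d * (∑ p, c p * A p) = d * 1 := by
      rw [mul_one, Finset.mul_sum]
      conv_rhs => rw [← hc]
      apply Finset.sum_congr rfl
      intro p _
      rw [hA p]
      ring
    have h3 := mul_left_cancel₀ hd0 h2
    have h4 : P ∣ 1 := by
      rw [← h3]
      apply Finset.dvd_sum
      intro p _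
      exact Dvd.dvd.mul_left (by simpa using hcon p.1 p.2) _
    exact hP.not_isUnit (isUnit_of_dvd_one h4)

/-- Degrees force the shape. -/
theorem core {F : Type} [Field F] (A : Matrix (Fin 3) (Fin 3) F[X]) (hA : A.det ≠ 0)
    (α β α' β' : ℕ) (k : ℤ)
    (h : ∀ i j, A i j ≠ 0 → k + dv α β i + ((A i j).natDegree : ℤ) ≤ dv α' β' j) :
    k ≤ 0 ∧ (k = 0 → α ≤ α') ∧ (k = 0 → α + β ≤ α' + β') := by
  refine ⟨?_, ?_, ?_⟩
  · by_contra hk
    push Not at hk
    apply hA
    have h0 : ∀ i, A i 0 = 0 := by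
      intro i
      by_contra hi
      have h1 := h i 0 hi
      have h2 : (0 : ℤ) ≤ dv α β i := by
        fin_cases i <;> simp [Pool.AV3.dv] <;> positivity
      have h3 : dv α' β' 0 = 0 := by simp [Pool.AV3.dv]
      rw [h3] at h1
      have h4 : (0 : ℤ) ≤ ((A i 0).natDegree : ℤ) := by positivity
      linarith
    rw [Matrix.det_fin_three, h0 0, h0 1, h0 2]
    ring
  · intro hk
    by_contra hα
    push Not at hα
    apply hA
    have h0 : ∀ i j, i ≠ 0 → j ≠ 2 → A i j = 0 := by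
      intro i j hi hj
      by_contra hij
      have h1 := h i j hij
      have h2 : (α : ℤ) ≤ dv α β i := by
        fin_cases i
        · exact absurd rfl hi
        · simp [Pool.AV3.dv]
        · simp [Pool.AV3.dv]
      have h3 : dv α' β' j ≤ (α' : ℤ) := by
        fin_cases j
        · simp [Pool.AV3.dv]
        · simp [Pool.AV3.dv]
        · exact absurd rfl hj
      have h4 : (0 : ℤ) ≤ ((A i j).natDegree : ℤ) := by positivity
      have h5 : (α' : ℤ) < α := by exact_mod_cast hα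
      linarith
    rw [Matrix.det_fin_three, h0 1 0 (by decide) (by decide), h0 1 1 (by decide) (by decide),
      h0 2 0 (by decide) (by decide), h0 2 1 (by decide) (by decide)]
    ring
  · intro hk
    by_contra hβ
    push Not at hβ
    apply hA
    have h0 : ∀ j, A 2 j = 0 := by
      intro j
      by_contra hj
      have h1 := h 2 j hj
      have h2 : dv α β 2 = (α : ℤ) + β := by simp [Pool.AV3.dv]
      have h3 : dv α' β' j ≤ (α' : ℤ) + β' := by
        fin_cases j <;> simp [Pool.AV3.dv]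
        positivity
      have h4 : (0 : ℤ) ≤ ((A 2 j).natDegree : ℤ) := by positivity
      have h5 : (α' : ℤ) + β' < α + β := by exact_mod_cast hβ
      rw [h2] at h1
      linarith
    rw [Matrix.det_fin_three, h0 0, h0 1, h0 2]
    ring

theorem Dg_inv {F : Type} [Field F] (d : Fin 3 → ℤ) :
    (Dg (F := F) d)⁻¹ = Matrix.diagonal fun i => (RatFunc.X : RatFunc F) ^ (-d i) := by
  have hX : (RatFunc.X : RatFunc F) ≠ 0 := RatFunc.X_ne_zero
  apply Matrix.inv_eq_right_inv
  rw [Dg, Matrix.diagonal_mul_diagonal, ← Matrix.diagonal_one]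
  congr 1
  funext j
  rw [← zpow_add₀ hX, add_neg_cancel, zpow_zero]

theorem sandwich {F : Type} [Field F] (d d' : Fin 3 → ℤ) (M : Matrix (Fin 3) (Fin 3) (RatFunc F))
    (i j : Fin 3) : (Dg (F := F) d * M * (Dg (F := F) d')⁻¹) i j =
      (RatFunc.X : RatFunc F) ^ (d i) * M i j * (RatFunc.X : RatFunc F) ^ (-d' j) := by
  rw [Dg_inv, Matrix.mul_diagonal, Dg, Matrix.diagonal_mul]

theorem entry_deg {F : Type} [Field F] (d d' : Fin 3 → ℤ) (A : Matrix (Fin 3) (Fin 3) F[X])
    (s : RatFunc F) (hs : s ≠ 0)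
    (h : AVS.MI (AVS.Iinf F) (s • (Dg d * A.map (algebraMap F[X] (RatFunc F)) * (Dg d')⁻¹)))
    (i j : Fin 3) (hij : A i j ≠ 0) :
    s.intDegree + d i + ((A i j).natDegree : ℤ) ≤ d' j := by
  have hX : (RatFunc.X : RatFunc F) ≠ 0 := RatFunc.X_ne_zero
  have h1 := h i j
  rw [Matrix.smul_apply, sandwich, smul_eq_mul, Matrix.map_apply] at h1
  have h2 : (s * ((RatFunc.X : RatFunc F) ^ (d i) * algebraMap F[X] (RatFunc F) (A i j) *
      (RatFunc.X : RatFunc F) ^ (-d' j))).intDegree ≤ 0 := h1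
  have hA : algebraMap F[X] (RatFunc F) (A i j) ≠ 0 := by simpa using hij
  have z1 : (RatFunc.X : RatFunc F) ^ (d i) ≠ 0 := zpow_ne_zero _ hX
  have z2 : (RatFunc.X : RatFunc F) ^ (-d' j) ≠ 0 := zpow_ne_zero _ hX
  rw [RatFunc.intDegree_mul hs (mul_ne_zero (mul_ne_zero z1 hA) z2),
    RatFunc.intDegree_mul (mul_ne_zero z1 hA) z2, RatFunc.intDegree_mul z1 hA,
    intDegree_X_zpow, intDegree_X_zpow, RatFunc.intDegree_polynomial] at h2
  linarith

theorem Dg_unit {F : Type} [Field F] (d : Fin 3 → ℤ) : IsUnit (Dg (F := F) d).det := by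
  rw [Dg, Matrix.det_diagonal, isUnit_iff_ne_zero]
  exact Finset.prod_ne_zero_iff.2 fun i _ => zpow_ne_zero _ RatFunc.X_ne_zero

theorem bas_thm (hPOL : Pool.AVS.POLStmt) (hDVP : Pool.AV3.DVPStmt) (hGIR : Pool.AV3.GIRStmt) :
    Pool.AV3.BASStmt := by
  intro F _ g α β α' β' hg hfin hinf
  have hg0 : g ≠ 0 := by
    rintro rfl
    apply hg
    exact Matrix.det_zero
  obtain ⟨A, r, hr, hgA, hprim⟩ := prim_exists g hg0
  obtain ⟨-, hadd, hdivP, -⟩ := hPOL F
  have hmapdet : (A.map (algebraMap F[X] (RatFunc F))).det =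
      algebraMap F[X] (RatFunc F) A.det := by
    rw [RingHom.map_det]
    rfl
  have hdetA : A.det ≠ 0 := by
    intro h0
    apply hg
    rw [hgA, det_smul, hmapdet, h0, map_zero, mul_zero]
  have hunit : IsUnit A.det := by
    by_contra hnu
    obtain ⟨P, hPm, hPi, hPd⟩ := Polynomial.exists_monic_irreducible_factor A.det hnu
    obtain ⟨rP, hrP, hM, hD⟩ := hfin P hPm hPi
    obtain ⟨i, j, hij⟩ := hprim P hPi
    have hDV := hDVP.1 F P hPi
    have hs : rP • g = (rP * r) • A.map (algebraMap F[X] (RatFunc F)) := by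
      rw [hgA, smul_smul]
    rw [hs] at hM hD
    have hA0 : A i j ≠ 0 := fun h0 => hij (by rw [h0]; exact dvd_zero P)
    have hx0 : algebraMap F[X] (RatFunc F) (A i j) ≠ 0 := by simpa using hA0
    have hxI := (hdivP P (A i j) hPi).1
    have hx1 : ¬ algebraMap F[X] (RatFunc F) (A i j) / algebraMap F[X] (RatFunc F) P ∈
        AVS.IP P := by
      intro h1
      have h2 := ((hdivP P (A i j) hPi).2 1).1 (by rw [pow_one]; exact h1)
      rw [pow_one] at h2
      exact hij h2
    have hx2 : (algebraMap F[X] (RatFunc F) (A i j))⁻¹ ∈ AVS.IP P := by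
      by_contra h1
      exact hx1 ((hDV.unif _ hxI hx0).1 h1)
    have hsI : rP * r ∈ AVS.IP P := by
      have h1 := hM i j
      rw [Matrix.smul_apply, Matrix.map_apply, smul_eq_mul] at h1
      have h2 := (hadd P hPi _ _ h1 hx2).2.1
      rw [mul_inv_cancel_right₀ hx0] at h2
      exact h2
    rw [det_smul, hmapdet, Fintype.card_fin] at hD
    obtain ⟨hD0, hD1, hD2⟩ := hD
    have h3 : (rP * r) ^ 3 * algebraMap F[X] (RatFunc F) A.det / algebraMap F[X] (RatFunc F) P ∈
        AVS.IP P := by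
      have h4 : algebraMap F[X] (RatFunc F) A.det / algebraMap F[X] (RatFunc F) P ∈
          AVS.IP P := by
        have h5 := ((hdivP P A.det hPi).2 1).2 (by rw [pow_one]; exact hPd)
        rw [pow_one] at h5
        exact h5
      have h6 := (hadd P hPi _ _ hsI hsI).2.1
      have h7 := (hadd P hPi _ _ h6 hsI).2.1
      have h8 := (hadd P hPi _ _ h7 h4).2.1
      have h9 : rP * r * (rP * r) * (rP * r) * (algebraMap F[X] (RatFunc F) A.det /
          algebraMap F[X] (RatFunc F) P) = (rP * r) ^ 3 * algebraMap F[X] (RatFunc F) A.det /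
          algebraMap F[X] (RatFunc F) P := by ring
      rw [← h9]
      exact h8
    exact (hDV.unif _ hD1 hD0).2 h3 hD2
  obtain ⟨ri, hri, hGi⟩ := hinf
  have hs0 : ri * r ≠ 0 := mul_ne_zero hri hr
  have hs : ri • (Dg (dv α β) * g * (Dg (dv α' β'))⁻¹) = (ri * r) • (Dg (dv α β) *
      A.map (algebraMap F[X] (RatFunc F)) * (Dg (dv α' β'))⁻¹) := by
    rw [hgA, Matrix.mul_smul, Matrix.smul_mul, smul_smul]
  rw [hs] at hGi
  have hAA : A * A⁻¹ = 1 := Matrix.mul_nonsing_inv A hunit
  have hAA' : A.map (algebraMap F[X] (RatFunc F)) * (A⁻¹).map (algebraMap F[X] (RatFunc F)) = 1 := by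
    rw [← Matrix.map_mul, hAA, Matrix.map_one _ (map_zero _) (map_one _)]
  have hinvdet : (A⁻¹).det ≠ 0 := by
    intro h0
    have h1 : A.det * (A⁻¹).det = 1 := by rw [← det_mul, hAA, det_one]
    rw [h0, mul_zero] at h1
    exact zero_ne_one h1
  have hGi' := ((hGIR (RatFunc F) (AVS.Iinf F) (RatFunc.X)⁻¹ (hDVP.2.1 F)).2.2.1 _ hGi).1
  have hinvm : ((ri * r) • (Dg (dv α β) * A.map (algebraMap F[X] (RatFunc F)) *
      (Dg (dv α' β'))⁻¹))⁻¹ = (ri * r)⁻¹ • (Dg (dv α' β') *
        (A⁻¹).map (algebraMap F[X] (RatFunc F)) * (Dg (dv α β))⁻¹) := by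
    apply Matrix.inv_eq_right_inv
    have e1 : (Dg (F := F) (dv α' β'))⁻¹ * Dg (dv α' β') = 1 :=
      Matrix.nonsing_inv_mul _ (Dg_unit _)
    have e2 : Dg (F := F) (dv α β) * (Dg (dv α β))⁻¹ = 1 := Matrix.mul_nonsing_inv _ (Dg_unit _)
    rw [Matrix.smul_mul, Matrix.mul_smul, smul_smul, mul_inv_cancel₀ hs0, one_smul]
    calc Dg (dv α β) * A.map (algebraMap F[X] (RatFunc F)) * (Dg (dv α' β'))⁻¹ *
        (Dg (dv α' β') * (A⁻¹).map (algebraMap F[X] (RatFunc F)) * (Dg (dv α β))⁻¹) =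
        Dg (dv α β) * A.map (algebraMap F[X] (RatFunc F)) * ((Dg (dv α' β'))⁻¹ *
          Dg (dv α' β')) * (A⁻¹).map (algebraMap F[X] (RatFunc F)) * (Dg (dv α β))⁻¹ := by
          simp only [Matrix.mul_assoc]
      _ = Dg (dv α β) * (A.map (algebraMap F[X] (RatFunc F)) *
          (A⁻¹).map (algebraMap F[X] (RatFunc F))) * (Dg (dv α β))⁻¹ := by
          rw [e1, Matrix.mul_one]
          simp only [Matrix.mul_assoc]
      _ = 1 := by rw [hAA', Matrix.mul_one, e2]
  rw [hinvm] at hGi'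
  have d1 := entry_deg _ _ A _ hs0 hGi.1
  have d2 := entry_deg _ _ (A⁻¹) _ (inv_ne_zero hs0) hGi'.1
  rw [RatFunc.intDegree_inv] at d2
  obtain ⟨c1, c2, c3⟩ := core A hdetA α β α' β' _ d1
  obtain ⟨c1', c2', c3'⟩ := core (A⁻¹) hinvdet α' β' α β _ d2
  have hk : (ri * r).intDegree = 0 := by linarith
  have hk' : -(ri * r).intDegree = 0 := by linarith
  have e1 : α = α' := le_antisymm (c2 hk) (c2' hk')
  have e2 : β = β' := by
    have h1 := c3 hk
    have h2 := c3' hk'
    omega
  subst e1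
  subst e2
  refine ⟨rfl, rfl, r, hr, A, ⟨hunit, fun i j hij => ?_⟩, hgA⟩
  have h1 := d1 i j hij
  rw [hk] at h1
  linarith

end Pool.Agent.H44.AV3C
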