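import Pool.Agent.H8.AV3.Stmts6
import Mathlib.RingTheory.DualNumber

/-!
# AV3C, module CLN: cubics containing a line
-/

set_option autoImplicit false

namespace Pool.Agent.H44.AV3C

open Polynomial Matrix Pool.AVR Pool.AV3

/-- A third column completing two independent vectors to a basis. -/
theorem exists_third {k : Type} [Field k] (v w : Fin 3 → k) (hv : v ≠ 0)
    (hw : ∀ r : k, w ≠ r • v) :
    ∃ u : Fin 3 → k, (!![w 0, v 0, u 0; w 1, v 1, u 1; w 2, v 2, u 2]).det ≠ 0 := by
  by_contra h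
  push Not at h
  have h0 := h ![1, 0, 0]
  have h1 := h ![0, 1, 0]
  have h2 := h ![0, 0, 1]
  simp [Matrix.det_fin_three] at h0 h1 h2
  have key : ∀ i j : Fin 3, w i * v j = w j * v i := by
    intro i j
    fin_cases i <;> fin_cases j <;> simp only [Fin.zero_eta, Fin.mk_one, Fin.reduceFinMk,
      Fin.isValue] <;> first | rfl | linear_combination h0 | linear_combination -h0 |
        linear_combination h1 | linear_combination -h1 | linear_combination h2 |
        linear_combination -h2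
  obtain ⟨j, hj⟩ := Function.ne_iff.1 hv
  apply hw (w j / v j)
  funext i
  have hj' : v j ≠ 0 := by simpa using hj
  rw [Pi.smul_apply, smul_eq_mul, div_mul_eq_mul_div, eq_div_iff hj']
  exact key i j

theorem cln_thm (hFCT : Pool.AV3.FCTStmt) (hJER : Pool.AV3.JERStmt) : Pool.AV3.CLNStmt := by
  intro k _ h2 τ hτ c v w hv hw h1 h2' h3 h4
  obtain ⟨u, hu⟩ := exists_third v w hv hw
  set g : Matrix (Fin 3) (Fin 3) k := !![w 0, v 0, u 0; w 1, v 1, u 1; w 2, v 2, u 2] with hg
  let ι : k →+* DualNumber k := TrivSqZeroExt.inlHom k k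
  let φ : DualNumber k →+* k := (TrivSqZeroExt.fstHom k k k).toRingHom
  have hφι : ∀ x : k, φ (ι x) = x := fun x => rfl
  have hφ : ∀ x : DualNumber k, φ x = TrivSqZeroExt.fst x := fun x => rfl
  have hdet : IsUnit (g.map ι).det := by
    have h5 : (g.map ι).det = ι g.det := by
      rw [RingHom.map_det]
      rfl
    rw [h5]
    exact (isUnit_iff_ne_zero.2 hu).map ι
  obtain ⟨d, hd⟩ := hdet
  set c' : Fin 10 → DualNumber k := (↑d⁻¹ : DualNumber k) • tsub c (g.map ι) with hc'
  have hE : Eqv (g.map ι) c c' := by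
    refine ⟨⟨d, hd⟩, ?_⟩
    rw [hc', ← hd, smul_smul, Units.mul_inv, one_smul]
  obtain ⟨η, hη⟩ := hJER (DualNumber k) τ hτ (g.map ι) c c' hE
  have hdsc : dsc (Jc τ c) = dsc (Jc τ c') := by
    rw [hη, dsc_sh]
  have hdvd : ∀ i, TrivSqZeroExt.fst (tsub c (g.map ι) i) = 0 →
      (DualNumber.eps : DualNumber k) ∣ c' i := by
    intro i hi
    rw [hc', Pi.smul_apply, smul_eq_mul]
    exact Dvd.dvd.mul_left (DualNumber.fst_eq_zero_iff_eps_dvd.1 hi) _
  have hcol0 : (fun i => φ ((g.map ι) i 0)) = w := by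
    funext i
    fin_cases i <;> simp [hg, hφι]
  have hcol1 : (fun i => φ ((g.map ι) i 1)) = v := by
    funext i
    fin_cases i <;> simp [hg, hφι]
  have e0 : TrivSqZeroExt.fst (tsub c (g.map ι) 0) = 0 := by
    rw [← hφ]
    simp only [tsub, Matrix.cons_val]
    rw [map_tev, hcol0]
    exact h4
  have e1 : TrivSqZeroExt.fst (tsub c (g.map ι) 1) = 0 := by
    rw [← hφ]
    simp only [tsub, Matrix.cons_val]
    rw [map_tder, hcol0, hcol1]
    exact h3
  have e3 : TrivSqZeroExt.fst (tsub c (g.map ι) 3) = 0 := by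
    rw [← hφ]
    simp only [tsub, Matrix.cons_val]
    rw [map_tder, hcol0, hcol1]
    exact h2'
  have e6 : TrivSqZeroExt.fst (tsub c (g.map ι) 6) = 0 := by
    rw [← hφ]
    simp only [tsub, Matrix.cons_val]
    rw [map_tev, hcol1]
    exact h1
  have h6 := (hFCT (DualNumber k) τ DualNumber.eps hτ).2.1 c' (hdvd 0 e0) (hdvd 1 e1) (hdvd 3 e3)
    (hdvd 6 e6)
  rw [hdsc]
  rw [DualNumber.eps_pow_two] at h6
  exact zero_dvd_iff.1 h6

end Pool.Agent.H44.AV3C
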